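import Pool.Agent.Helper33.CS.SlimMainA

/-!
Let `C` be any smooth projective curve of genus `g ≥ 2` over an algebraically closed field of
characteristic 0.  For every `n ≥ 3` (in particular for every `n` with `β(2, K, n) < 0`):
`G(α; 2, K, n)` is not empty for some `α > 0` if and only if `G_0(2, K, n)` is not empty.
-/

open Module Pool.Agent.Helper11 Pool.Agent.Helper33.CoherentSystemsA

namespace Pool.Agent.Results.MP_b96d2b_ag.AllAlpha

universe u

theorem result (k F : Type u) [Field k] [IsAlgClosed k] [CharZero k] [Field F] [Algebra k F]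
    (hF : IsCurveField k F) (hg : 2 ≤ genus k F) (W : CurvePt k F →₀ ℤ) (hW : IsCanonical W) :
    (∀ n : ℕ, beta (genus k F) n < 0 → 3 ≤ n) ∧
    ∀ n : ℕ, 3 ≤ n → ((∃ α : ℝ, 0 < α ∧ GNonempty W n α) ↔ GZeroNonempty W n) :=
  main k F hF hg W hW

end Pool.Agent.Results.MP_b96d2b_ag.AllAlpha
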