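import Pool.Agent.Helper33.CS.SlimMain

/-!
Let `C` be a non-hyperelliptic smooth projective curve of genus `g` over an algebraically closed
field of characteristic 0 and `n ≥ 2`.

(1) `U(2, K, n)` is not empty if and only if `B(2, K, n)` is not empty; and then one `(E, V)`, `E`
stable, is `α`-stable for all `α > 0`.
(2) If no theta characteristic of `C` has more than `n / 2` sections, this is the case if and only
if `G(α; 2, K, n)` is not empty for some `α > 0`.
(3) It is the case if some line bundle `N`, `deg N ≤ g - 1`, `N` not a theta characteristic, has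
more than `n / 2` sections.
(4) If no theta characteristic has two sections, then the conjecture (Q1 and Q2) holds for `C` and
all `n ≥ 2` if and only if for all `n ≥ 2`: `B(2, K, n)` is not empty iff `β(2, K, n) ≥ 0`.
-/

open Module Pool.Agent.Helper11 Pool.Agent.Helper33.CoherentSystems

namespace Pool.Agent.Results.MP_b96d2b_ag.StableSystems

universe u

theorem result (k F : Type u) [Field k] [IsAlgClosed k] [CharZero k] [Field F] [Algebra k F]
    (hF : IsCurveField k F) (hC : NonHyp k F) (W : CurvePt k F →₀ ℤ) (hW : IsCanonical W) :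
    (∀ n : ℕ, 2 ≤ n →
      (UNonempty W n ↔ BNonempty W n) ∧
      (UNonempty W n → ∃ (E : Bundle k F) (H : Submodule k (Fin 2 → F)), IsStable E (deg W) ∧
        ∀ α : ℝ, 0 < α → InG W n α E H) ∧
      ((∀ θ : CurvePt k F →₀ ℤ, IsTheta W θ → 2 * ell θ ≤ n) →
        ((∃ α : ℝ, 0 < α ∧ GNonempty W n α) ↔ UNonempty W n)) ∧
      (∀ N : CurvePt k F →₀ ℤ, 2 * deg N ≤ deg W → n < 2 * ell N → ¬ IsTheta W N →
        UNonempty W n)) ∧
    ((∀ θ : CurvePt k F →₀ ℤ, IsTheta W θ → ell θ ≤ 1) →
      ((∀ n : ℕ, 2 ≤ n →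
          (beta (genus k F) n < 0 → ∀ α : ℝ, 0 < α → ¬ GNonempty W n α) ∧
          (0 ≤ beta (genus k F) n → UNonempty W n)) ↔
        ∀ n : ℕ, 2 ≤ n → (BNonempty W n ↔ 0 ≤ beta (genus k F) n))) :=
  main k F hF hC W hW

end Pool.Agent.Results.MP_b96d2b_ag.StableSystems
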